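import Pool.Agent.Lib_helper57.QI.E0

/-!
# Module EN : existence of a nice root (`lemN`)
-/

set_option autoImplicit false

namespace H57.QI

variable {H : Type} [Group H]

namespace Auto

variable {D : Geo H} (A : Auto D)

/-- chosen centres of the vertical states, when there is no nice root -/
theorem exists_cc (hno : ∀ s, ¬ A.NiceRoot s) : ∃ cc : A.Q → ℂ,
    (∀ (s : A.Q) (V : List A.S), A.Vert s → A.sc s (A.st s V) →
      D.act (A.val V) (cc (A.st s V)) = cc s) ∧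
    ∃ n : A.Q → ℤ, ∃ x : A.Q → ℂ, ∀ s, A.Vert s → n s ≠ 0 ∧ x s ∈ D.O2 ∧
      cc s = x s / (1 - D.al ^ (n s)) := by
  classical
  have hz : ∀ s : A.Q, ∃ z : List A.S, A.Vert s → A.st s z = s ∧ D.e (A.val z) ≠ 0 := by
    intro s
    by_cases h : A.Vert s
    · obtain ⟨_, z, h1, h2⟩ := h
      exact ⟨z, fun _ => ⟨h1, h2⟩⟩
    · exact ⟨[], fun h' => absurd h' h⟩
  choose z hz using hz
  have key : ∀ (s : A.Q) (V : List A.S), A.Vert s → A.st s V = s → D.e (A.val V) ≠ 0 →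
      D.cen (A.val V) = D.cen (A.val (z s)) := by
    intro s V hs hV he
    by_contra hne
    exact hno s ⟨hs.1, V, z s, hV, (hz s hs).1, he, (hz s hs).2, hne⟩
  refine ⟨fun s => D.cen (A.val (z s)), ?_, fun s => D.e (A.val (z s)),
    fun s => D.x (A.val (z s)), fun s hs => ⟨(hz s hs).2, D.x_mem _, rfl⟩⟩
  intro s V hs hsc
  obtain ⟨V', hV'⟩ := hsc.2
  set s' := A.st s V with hs'
  have hsV : A.Vert s' := A.Vert_sc hs hsc
  obtain ⟨hz1, hz2⟩ := hz s' hsV
  set y := z s' with hy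
  -- the loops `V y^i V'`
  have hloop : ∀ i : ℕ, A.st s (V ++ rep y i ++ V') = s := by
    intro i
    rw [A.st_append, A.st_append, ← hs', A.st_rep hz1, hV']
  have he : ∀ i : ℕ, D.e (A.val (V ++ rep y i ++ V')) =
      D.e (A.val V) + D.e (A.val V') + i * D.e (A.val y) := by
    intro i
    rw [A.val_append, A.val_append, A.val_rep, D.e_mul, D.e_mul, D.e_pow]
    ring
  obtain ⟨i, hi1, hi2⟩ : ∃ i : ℕ, D.e (A.val (V ++ rep y i ++ V')) ≠ 0 ∧
      D.e (A.val (V ++ rep y (i + 1) ++ V')) ≠ 0 := by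
    set a := D.e (A.val V) + D.e (A.val V') with ha
    set b := D.e (A.val y) with hb
    by_cases h0 : a = 0
    · refine ⟨1, ?_, ?_⟩
      · rw [he, h0]; push_cast; omega
      · rw [he, h0]; push_cast; omega
    · by_cases h1 : a + b = 0
      · refine ⟨2, ?_, ?_⟩
        · rw [he]; push_cast; omega
        · rw [he]; push_cast; omega
      · refine ⟨0, ?_, ?_⟩
        · rw [he]; push_cast; omega
        · rw [he]; push_cast; omega
  have f1 : ∀ j : ℕ, D.e (A.val (V ++ rep y j ++ V')) ≠ 0 →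
      D.act (A.val (V ++ rep y j ++ V')) (D.cen (A.val (z s))) = D.cen (A.val (z s)) := by
    intro j hj
    have h1 := key s _ hs (hloop j) hj
    rw [← h1]
    exact D.act_cen hj
  have g1 := f1 i hi1
  have g2 := f1 (i + 1) hi2
  rw [A.val_append, A.val_append, A.val_rep, D.act_mul, D.act_mul] at g1
  rw [A.val_append, A.val_append, A.val_rep, D.act_mul, D.act_mul, pow_succ', D.act_mul] at g2
  set c := D.cen (A.val (z s)) with hc
  set w := D.act (A.val y ^ i) (D.act (A.val V') c) with hw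
  -- `act V w = c` and `act V (act y w) = c`
  have h3 : w = D.act (A.val V)⁻¹ c := by rw [← g1, D.act_inv_act]
  have h4 : D.act (A.val y) w = D.act (A.val V)⁻¹ c := by rw [← g2, D.act_inv_act]
  have h5 : D.act (A.val y) w = w := by rw [h4, h3]
  have h6 : w = D.cen (A.val y) := D.eq_cen hz2 h5
  show D.act (A.val V) (D.cen (A.val y)) = c
  rw [← h6, g1]

/-- a common denominator for the centres -/
theorem exists_den {cc : A.Q → ℂ} {n : A.Q → ℤ} {x : A.Q → ℂ}
    (h : ∀ s, A.Vert s → n s ≠ 0 ∧ x s ∈ D.O2 ∧ cc s = x s / (1 - D.al ^ (n s))) :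
    ∃ Dd : ℕ, 0 < Dd ∧ ∀ s, A.Vert s → (Dd : ℂ) * cc s ∈ D.O2 := by
  classical
  have hd : ∀ s : A.Q, ∃ d : ℕ, 0 < d ∧ (A.Vert s → (d : ℂ) * cc s ∈ D.O2) := by
    intro s
    by_cases hs : A.Vert s
    · obtain ⟨h1, h2, h3⟩ := h s hs
      obtain ⟨d, hd, hd'⟩ := D.cen_den (n s) h1
      refine ⟨d, hd, fun _ => ?_⟩
      rw [h3]
      exact hd' _ h2
    · exact ⟨1, one_pos, fun h' => absurd h' hs⟩
  choose d hd hd' using hd
  refine ⟨∏ s : A.Q, d s, Finset.prod_pos fun s _ => hd s, fun s hs => ?_⟩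
  rw [← Finset.mul_prod_erase Finset.univ d (Finset.mem_univ s)]
  push_cast
  have h1 := hd' s hs
  have h2 : (d s : ℂ) * (∏ i ∈ Finset.univ.erase s, (d i : ℂ)) * cc s =
      (((∏ i ∈ Finset.univ.erase s, d i : ℕ)) : ℂ) * ((d s : ℂ) * cc s) := by
    push_cast; ring
  rw [h2, ← nsmul_eq_mul]
  exact AddSubgroup.nsmul_mem _ h1 _

theorem up_pow {g : H} (hg : D.e g = D.L g) (i : ℕ) :
    D.e (g ^ i) = D.L (g ^ i) ∧ D.L (g ^ i) = i * D.L g := by
  induction i with
  | zero => simp [D.e_one, D.L_one]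
  | succ i ih =>
    rw [pow_succ]
    obtain ⟨h1, h2⟩ := D.up_mul ih.1 hg
    refine ⟨h1, ?_⟩
    rw [h2, ih.2]; ring

/-- first visits of the vertices `g ^ i` by the accepted word of `g ^ m` -/
theorem visits {g : H} (hg : D.e g = D.L g) {m : ℕ} {W : List A.S} (hW : W ∈ A.M.accepts)
    (hv : A.val W = g ^ m) : ∃ (s : ℕ → A.Q) (X : ℕ → H),
      (∀ i ≤ m, A.live (s i)) ∧
      (∀ i ≤ m, D.L ((X i)⁻¹ * g ^ i) = 0) ∧
      (∀ i ≤ m, ∃ t ≤ W.length, X i = A.val (W.take t)) ∧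
      (∀ i j, i ≤ j → j ≤ m → ∃ V : List A.S, A.st (s i) V = s j ∧ X i * A.val V = X j) := by
  classical
  have hL : ∀ i, D.L (g ^ i) = i * D.L g := fun i => (up_pow hg i).2
  have hex : ∀ i ≤ m, ∃ t, t ≤ W.length ∧ D.L ((A.val (W.take t))⁻¹ * g ^ i) = 0 := by
    intro i hi
    obtain ⟨t, h1, h2⟩ := A.visit W (g ^ i) (by
      have h3 : (g ^ i)⁻¹ * A.val W = g ^ (m - i) := by
        rw [hv, ← pow_sub_mul_pow g hi, ← pow_mul_comm, inv_mul_cancel_left]
      rw [h3, hv, hL, hL, hL, ← add_mul]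
      congr 1
      omega)
    exact ⟨t, h1, h2⟩
  have hT : ∀ i : ℕ, ∃ t : ℕ, i ≤ m → t ≤ W.length ∧ D.L ((A.val (W.take t))⁻¹ * g ^ i) = 0 ∧
      ∀ t' < t, D.L ((A.val (W.take t'))⁻¹ * g ^ i) ≠ 0 := by
    intro i
    by_cases hi : i ≤ m
    · have h := hex i hi
      refine ⟨Nat.find h, fun _ => ⟨(Nat.find_spec h).1, (Nat.find_spec h).2, ?_⟩⟩
      intro t' ht' h0
      exact Nat.find_min h ht' ⟨(ht'.le.trans (Nat.find_spec h).1), h0⟩
    · exact ⟨0, fun h' => absurd h' hi⟩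
  choose T hT using hT
  have hmono : ∀ i j, i ≤ j → j ≤ m → T i ≤ T j := by
    intro i j hij hj
    obtain ⟨h1, h2, h3⟩ := hT j hj
    obtain ⟨h1', h2', h3'⟩ := hT i (hij.trans hj)
    set p := (A.val (W.take (T j)))⁻¹ * g ^ j with hp
    -- the vertex `g ^ i` is on the segment from `1` to the vertex reached at time `T j`
    obtain ⟨t, ht, ht0⟩ := A.visit (W.take (T j)) (g ^ i) (by
      have e1 : A.val (W.take (T j)) = g ^ j * p⁻¹ := by rw [hp]; group
      have e2 : (g ^ i)⁻¹ * (g ^ j * p⁻¹) = g ^ (j - i) * p⁻¹ := by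
        rw [← mul_assoc, ← pow_sub_mul_pow g hij, ← pow_mul_comm, inv_mul_cancel_left]
      have hp' : D.L p⁻¹ = 0 := D.L0_inv h2
      rw [e1, e2, D.L_mul_P hp', D.L_mul_P hp', hL, hL, hL, ← add_mul]
      congr 1
      omega)
    rw [List.length_take] at ht
    have ht1 : t ≤ T j := ht.trans (min_le_left _ _)
    rw [List.take_take, min_eq_left ht1] at ht0
    by_contra hlt
    push Not at hlt
    exact h3' t (lt_of_le_of_lt ht1 hlt) ht0
  refine ⟨fun i => A.st A.q0 (W.take (T i)), fun i => A.val (W.take (T i)), ?_, ?_, ?_, ?_⟩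
  · intro i _
    exact A.live_of_mem hW _
  · intro i hi
    exact (hT i hi).2.1
  · intro i hi
    exact ⟨T i, (hT i hi).1, rfl⟩
  · intro i j hij hj
    refine ⟨(W.drop (T i)).take (T j - T i), ?_, ?_⟩
    · rw [← A.st_append, ← List.take_add, Nat.add_sub_cancel' (hmono i j hij hj)]
    · rw [← A.val_append, ← List.take_add, Nat.add_sub_cancel' (hmono i j hij hj)]

/-- exponential growth beats quadratic growth -/
theorem exists_big (q B : ℕ) (a b : ℝ) :
    ∃ M : ℕ, B ≤ M ∧ 4 * (a * M + b) ^ 2 < (2 : ℝ) ^ (M - q) := by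
  have h2 := tendsto_pow_const_div_const_pow_of_one_lt 2 (one_lt_two : (1 : ℝ) < 2)
  have h1 := tendsto_pow_const_div_const_pow_of_one_lt 1 (one_lt_two : (1 : ℝ) < 2)
  have h0 := tendsto_pow_const_div_const_pow_of_one_lt 0 (one_lt_two : (1 : ℝ) < 2)
  have h : Filter.Tendsto (fun n : ℕ => 4 * 2 ^ q * (a ^ 2 * ((n : ℝ) ^ 2 / 2 ^ n) +
      2 * a * b * ((n : ℝ) ^ 1 / 2 ^ n) + b ^ 2 * ((n : ℝ) ^ 0 / 2 ^ n))) Filter.atTop
      (nhds (4 * 2 ^ q * (a ^ 2 * 0 + 2 * a * b * 0 + b ^ 2 * 0))) :=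
    (((h2.const_mul _).add (h1.const_mul _)).add (h0.const_mul _)).const_mul _
  have h3 : (4 * 2 ^ q * (a ^ 2 * 0 + 2 * a * b * 0 + b ^ 2 * 0) : ℝ) < 1 := by norm_num
  have h4 := (h.eventually (gt_mem_nhds h3)).and
    ((Filter.eventually_ge_atTop B).and (Filter.eventually_ge_atTop q))
  obtain ⟨M, hM1, hM2, hM3⟩ := h4.exists
  refine ⟨M, hM2, ?_⟩
  have hpos : (0 : ℝ) < 2 ^ M := by positivity
  have hposq : (0 : ℝ) < 2 ^ q := by positivity
  have e1 : (2 : ℝ) ^ M = 2 ^ q * 2 ^ (M - q) := by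
    rw [← pow_add, Nat.add_sub_cancel' hM3]
  have e2 : 4 * 2 ^ q * (a ^ 2 * ((M : ℝ) ^ 2 / 2 ^ M) +
      2 * a * b * ((M : ℝ) ^ 1 / 2 ^ M) + b ^ 2 * ((M : ℝ) ^ 0 / 2 ^ M)) =
      2 ^ q * (4 * (a * M + b) ^ 2) / 2 ^ M := by
    field_simp
    ring
  rw [e2, div_lt_one hpos, e1] at hM1
  exact lt_of_mul_lt_mul_left hM1 hposq.le

/-- Lemma N : there is a nice root -/
theorem lemN (hH : A.LemH) : A.LemN := by
  classical
  by_contra hno
  have hno' : ∀ s, ¬ A.NiceRoot s := fun s hs => hno ⟨s, hs⟩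
  obtain ⟨cc, hcc, nn, xx, hnx⟩ := A.exists_cc hno'
  obtain ⟨Dd, hDd, hDcc⟩ := A.exists_den hnx
  obtain ⟨g, hg0, hgL, hgc⟩ := D.special Dd hDd
  obtain ⟨C, hC⟩ := hH
  obtain ⟨lam, hlam1, hlam⟩ := A.exists_QG
  obtain ⟨xi, hxi1, hxi⟩ := A.exists_xi
  have hge : D.e g ≠ 0 := hg0.ne'
  set c0 := D.cen g with hc0
  set h := D.L g with hh
  have hhpos : 0 < h := by
    have : (0 : ℤ) < h := by rw [hh, ← hgL]; exact hg0
    exact_mod_cast this
  -- the centre of `g` is not a translate of the centres of the states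
  have hw : ∀ (y : H) (s : A.Q), A.Vert s → D.act y (cc s) ≠ c0 := by
    intro y s hs heq
    apply hgc
    have e1 : D.x g / (1 - D.al ^ (D.e g)) = D.x y + D.al ^ (D.e y) * cc s := by
      have : D.cen g = D.act y (cc s) := heq.symm
      simpa [Geo.cen, Geo.act] using this
    rw [e1]
    have e2 : (Dd : ℂ) * (D.x y + D.al ^ (D.e y) * cc s) =
        Dd • D.x y + D.al ^ (D.e y) * ((Dd : ℂ) * cc s) := by
      rw [nsmul_eq_mul]; ring
    rw [e2]
    exact D.O2.add_mem (D.O2.nsmul_mem (D.x_mem y) _) (D.O2_al _ (hDcc s hs) _)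
  -- bound for the chosen centres
  obtain ⟨Cc, hCc0, hCc⟩ : ∃ Cc : ℝ, 0 ≤ Cc ∧ ∀ s, ‖cc s‖ ≤ Cc :=
    ⟨∑ s, ‖cc s‖, Finset.sum_nonneg fun _ _ => norm_nonneg _, fun s =>
      Finset.single_le_sum (f := fun s => ‖cc s‖) (fun _ _ => norm_nonneg _) (Finset.mem_univ s)⟩
  set q := Fintype.card A.Q with hq
  have hqpos : 0 < q := Fintype.card_pos_iff.2 ⟨A.q0⟩
  -- the parameters
  obtain ⟨M, hMB, hM⟩ := exists_big q (q + C + 1) (xi * lam * (h * (q * (q + 1))))
    (xi * lam * (2 * ‖c0‖ + 1) + Cc + ‖c0‖)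
  set l := (q + 1) * M with hl
  set m := q * l with hm
  obtain ⟨W, hW, hWv⟩ := A.exists_word (g ^ m)
  obtain ⟨s, X, hs, hX, hXt, hpath⟩ := A.visits hgL hW hWv
  -- bound for the plane coordinate of the `X i`
  have hXb : ∀ i ≤ m, ‖D.x (X i)‖ ≤ xi * lam * (h * (q * (q + 1))) * M + xi * lam * (2 * ‖c0‖ + 1) := by
    intro i hi
    obtain ⟨t, ht, hXi⟩ := hXt i hi
    have h1 : ‖D.x (X i)‖ ≤ xi * (W.take t).length := by
      rw [hXi]; exact (D.norm_x_le_N _).trans (hxi _)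
    have h2 : ((W.take t).length : ℝ) ≤ W.length := by
      exact_mod_cast List.length_take_le' _ _
    have h3 : (W.length : ℝ) ≤ lam * (D.N (A.val W) + 1) := by
      apply hlam A.q0 W A.acc_q0
      exact ⟨[], hW⟩
    have h4 : D.N (A.val W) ≤ 2 * ‖c0‖ + h * (q * (q + 1)) * M := by
      rw [hWv]
      have h5 := D.norm_x_pow_le hge m
      have h6 := (up_pow hgL m).2
      unfold Geo.N
      rw [h6]
      have h7 : ((m * D.L g : ℕ) : ℝ) = h * (q * (q + 1)) * M := by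
        rw [hm, hl]; push_cast; ring
      rw [h7]
      linarith
    have h8 : lam * (D.N (A.val W) + 1) ≤ lam * (2 * ‖c0‖ + h * (q * (q + 1)) * M + 1) := by
      apply mul_le_mul_of_nonneg_left _ (by linarith)
      linarith
    calc ‖D.x (X i)‖ ≤ xi * (W.take t).length := h1
      _ ≤ xi * (lam * (2 * ‖c0‖ + h * (q * (q + 1)) * M + 1)) := by
          apply mul_le_mul_of_nonneg_left _ (by linarith)
          linarith
      _ = _ := by ring
  -- ranks are non-increasing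
  have hrk : ∀ i j, i ≤ j → j ≤ m → A.rk (s j) ≤ A.rk (s i) := by
    intro i j hij hj
    obtain ⟨V, hV, _⟩ := hpath i j hij hj
    rw [← hV]; exact A.rk_le _ _
  -- a block with constant rank
  obtain ⟨k, hk, hkr⟩ : ∃ k < q, A.rk (s (k * l)) = A.rk (s ((k + 1) * l)) := by
    by_contra hcon
    push Not at hcon
    have hle : ∀ k ≤ q, k * l ≤ m := fun k hk => Nat.mul_le_mul_right _ hk
    have hdec : ∀ k ≤ q, A.rk (s (k * l)) + k ≤ q := by
      intro k
      induction k with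
      | zero => intro _; simpa using A.rk_le_card (s (0 * l))
      | succ k ih =>
        intro hk1
        have h1 := ih (by omega)
        have h2 := hrk (k * l) ((k + 1) * l) (Nat.mul_le_mul_right _ (by omega)) (hle _ hk1)
        have h3 := hcon k (by omega)
        omega
    have h1 := hdec q le_rfl
    have h2 := A.rk_pos (s (q * l))
    omega
  set a := k * l with ha
  have hal : a + l ≤ m := by
    have : (k + 1) * l ≤ q * l := Nat.mul_le_mul_right _ hk
    rw [ha, hm]; linarith [this, Nat.succ_mul k l]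
  have hkl : (k + 1) * l = a + l := by rw [ha]; ring
  rw [hkl] at hkr
  have hrkc : ∀ i, a ≤ i → i ≤ a + l → A.rk (s i) = A.rk (s a) := by
    intro i h1 h2
    have h3 := hrk a i h1 (h2.trans hal)
    have h4 := hrk i (a + l) h2 hal
    omega
  have hsc : ∀ i, a ≤ i → i ≤ a + l → ∃ V, A.st (s a) V = s i ∧ X a * A.val V = X i ∧
      A.sc (s a) (A.st (s a) V) := by
    intro i h1 h2
    obtain ⟨V, hV, hVX⟩ := hpath a i h1 (h2.trans hal)
    refine ⟨V, hV, hVX, A.sc_of_rk_eq ?_⟩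
    rw [hV]; exact hrkc i h1 h2
  have ham : a ≤ m := by omega
  -- exponents
  have heX : ∀ i ≤ m, D.e (X i) = i * h := by
    intro i hi
    have h1 := D.e_of_L0 (hX i hi)
    rw [D.e_mul, D.e_inv, D.e_pow, hgL] at h1
    linarith
  -- the component is vertical
  have hVa : A.Vert (s a) := by
    by_contra hnv
    obtain ⟨V, hV, hVX, hVsc⟩ := hsc (a + l) (by omega) le_rfl
    have h1 := hC (s a) V (hs a ham) hnv hVsc
    have h2 : D.e (A.val V) = l * h := by
      have h3 := D.e_mul (X a) (A.val V)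
      rw [hVX, heX _ hal, heX _ ham] at h3
      push_cast at h3
      linarith
    rw [h2] at h1
    have h4 : (l : ℤ) * h ≤ C := (le_abs_self _).trans h1
    have h5 : l * h ≤ C := by exact_mod_cast h4
    have h6 : l ≤ l * h := Nat.le_mul_of_pos_right _ hhpos
    have h7 : M ≤ l := by
      rw [hl]; exact Nat.le_mul_of_pos_left _ (by omega)
    omega
  -- the constant centre
  set zs := D.act (X a) (cc (s a)) with hzs
  set w := zs - c0 with hwdef
  have hw0 : w ≠ 0 := sub_ne_zero.2 (hw _ _ hVa)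
  have hzi : ∀ i, a ≤ i → i ≤ a + l → D.act (X i) (cc (s i)) = zs := by
    intro i h1 h2
    obtain ⟨V, hV, hVX, hVsc⟩ := hsc i h1 h2
    rw [← hVX, D.act_mul, ← hV, hcc _ _ hVa hVsc]
  have hVi : ∀ i, a ≤ i → i ≤ a + l → A.Vert (s i) := by
    intro i h1 h2
    obtain ⟨V, hV, hVX, hVsc⟩ := hsc i h1 h2
    rw [hV] at hVsc
    exact A.Vert_sc hVa hVsc
  -- `p i = g ^ (-i) * X i`
  have hp : ∀ i, a ≤ i → i ≤ a + l → ∃ o ∈ D.O, o + cc (s i) = c0 + D.al ^ (-((h : ℤ) * i)) * w := by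
    intro i h1 h2
    have him : i ≤ m := h2.trans hal
    have hpi : D.L ((g ^ i)⁻¹ * X i) = 0 := by
      rw [D.L_inv_mul_comm]; exact hX i him
    refine ⟨D.x ((g ^ i)⁻¹ * X i), D.P_mem _ hpi, ?_⟩
    have e1 : D.act ((g ^ i)⁻¹ * X i) (cc (s i)) = D.x ((g ^ i)⁻¹ * X i) + cc (s i) := by
      unfold Geo.act
      rw [D.e_of_L0 hpi]; simp
    rw [← e1, D.act_mul, hzi i h1 h2]
    have e2 : D.act (g ^ i)⁻¹ c0 = c0 := by
      have := D.act_zpow_fix (D.act_cen hge) (-(i : ℤ))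
      rwa [zpow_neg, zpow_natCast] at this
    have e3 := D.act_sub (g ^ i)⁻¹ zs c0
    rw [e2, D.e_inv, D.e_pow, hgL] at e3
    rw [hwdef]
    have e4 : (-((i : ℤ) * (h : ℤ))) = -((h : ℤ) * i) := by ring
    rw [e4] at e3
    linear_combination e3
  -- norm of `w`
  have hwn : ‖w‖ ≤ xi * lam * (h * (q * (q + 1))) * M + (xi * lam * (2 * ‖c0‖ + 1) + Cc + ‖c0‖) := by
    have h1 : ‖zs‖ ≤ ‖D.x (X a)‖ + Cc := by
      rw [hzs]; unfold Geo.act
      refine (norm_add_le _ _).trans ?_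
      rw [norm_mul, D.norm_al_zpow, one_mul]
      linarith [hCc (s a)]
    have h2 := hXb a ham
    have h3 : ‖w‖ ≤ ‖zs‖ + ‖c0‖ := norm_sub_le _ _
    linarith
  -- windows
  have hwin : ∀ u : ℕ, u ≤ q → ∃ i d : ℕ, a + u * M ≤ i ∧ i + d ≤ a + u * M + q ∧ 0 < d ∧
      s i = s (i + d) := by
    intro u hu
    have hcard : Fintype.card A.Q < Fintype.card (Fin (q + 1)) := by
      rw [Fintype.card_fin]; omega
    obtain ⟨i, j, hij, hsij⟩ := Fintype.exists_ne_map_eq_of_card_lt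
      (fun i : Fin (q + 1) => s (a + u * M + i)) hcard
    have hij' : (i : ℕ) ≠ j := fun h' => hij (Fin.ext h')
    rcases lt_or_gt_of_ne hij' with h1 | h1
    · refine ⟨a + u * M + i, j - i, by omega, by omega, by omega, ?_⟩
      have : a + u * M + i + (j - i) = a + u * M + j := by omega
      rw [this]; exact hsij
    · refine ⟨a + u * M + j, i - j, by omega, by omega, by omega, ?_⟩
      have : a + u * M + j + (i - j) = a + u * M + i := by omega
      rw [this]; exact hsij.symm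
  choose! wi wd hwin1 hwin2 hwin3 hwin4 using hwin
  -- two windows with the same difference
  have hwd : ∀ u : Fin (q + 1), wd u ≤ q := by
    intro u
    have h1 := hwin1 u (by omega)
    have h2 := hwin2 u (by omega)
    omega
  obtain ⟨u, u', huu, hd⟩ : ∃ u u' : ℕ, u < u' ∧ u' ≤ q ∧ wd u = wd u' := by
    obtain ⟨u, u', hne, heq⟩ := Fintype.exists_ne_map_eq_of_card_lt
      (fun u : Fin (q + 1) => (⟨wd u - 1, by
        have h1 := hwd u
        have h3 := hwin3 u (by omega)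
        omega⟩ : Fin q)) (by simp)
    have heq' : wd u - 1 = wd u' - 1 := by simpa using heq
    have h1 := hwin3 u (by omega)
    have h2 := hwin3 u' (by omega)
    have hne' : (u : ℕ) ≠ u' := fun h' => hne (Fin.ext h')
    rcases lt_or_gt_of_ne hne' with h3 | h3
    · exact ⟨u, u', h3, by omega, by omega⟩
    · exact ⟨u', u, h3, by omega, by omega⟩
  obtain ⟨hu'q, hd⟩ := hd
  set d := wd u with hdd
  -- the two lattice vectors
  have hbound : ∀ v ≤ q, a ≤ wi v ∧ wi v + wd v ≤ a + l := by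
    intro v hv
    have h1 := hwin1 v hv
    have h2 := hwin2 v hv
    have h3 : v * M + q ≤ l := by
      rw [hl, Nat.add_mul, one_mul]
      exact Nat.add_le_add (Nat.mul_le_mul_right _ hv) (by omega)
    refine ⟨le_trans (Nat.le_add_right _ _) h1, ?_⟩
    omega
  have hvec : ∀ v ≤ q, wd v = d →
      D.al ^ (-((h : ℤ) * (wi v))) * ((1 - D.al ^ (-((h : ℤ) * d))) * w) ∈ D.O := by
    intro v hv hvd
    obtain ⟨hb1, hb2⟩ := hbound v hv
    obtain ⟨o1, ho1, ho1'⟩ := hp (wi v) hb1 (by omega)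
    obtain ⟨o2, ho2, ho2'⟩ := hp (wi v + wd v) (by omega) hb2
    rw [← hwin4 v hv] at ho2'
    have h1 := D.O.sub_mem ho1 ho2
    have h2 : o1 - o2 = D.al ^ (-((h : ℤ) * (wi v))) * ((1 - D.al ^ (-((h : ℤ) * d))) * w) := by
      have e1 : D.al ^ (-((h : ℤ) * ((wi v + wd v : ℕ) : ℤ))) =
          D.al ^ (-((h : ℤ) * (wi v))) * D.al ^ (-((h : ℤ) * d)) := by
        rw [← zpow_add₀ D.al_ne_zero]
        congr 1
        rw [hvd]; push_cast; ring
      rw [e1] at ho2'
      linear_combination ho1' - ho2'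
    rw [h2] at h1
    exact h1
  have hv1 := hvec u (by omega) rfl
  have hv2 := hvec u' hu'q hd.symm
  set v := D.al ^ (-((h : ℤ) * (wi u))) * ((1 - D.al ^ (-((h : ℤ) * d))) * w) with hvdef
  have hdpos : 0 < d := hwin3 u (by omega)
  have hfac : (1 - D.al ^ (-((h : ℤ) * d))) ≠ 0 := by
    apply sub_ne_zero.2
    apply Ne.symm
    apply D.al_zpow_ne_one
    have : (0 : ℤ) < (h : ℤ) * d := by positivity
    omega
  have hvne : v ≠ 0 := by
    rw [hvdef]
    exact mul_ne_zero (zpow_ne_zero _ D.al_ne_zero) (mul_ne_zero hfac hw0)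
  -- the distance of the two windows
  have hdist : wi u + (M - q) ≤ wi u' := by
    have h1 := hwin2 u (by omega)
    have h2 := hwin1 u' hu'q
    have h3 : u * M + M ≤ u' * M := by
      have : (u + 1) * M ≤ u' * M := Nat.mul_le_mul_right _ huu
      linarith [Nat.succ_mul u M]
    omega
  have hint := D.O_int (h * (wi u' - wi u)) v hv1 (by
    have e1 : D.al ^ (-(((h * (wi u' - wi u) : ℕ)) : ℤ)) * v =
        D.al ^ (-((h : ℤ) * (wi u'))) * ((1 - D.al ^ (-((h : ℤ) * d))) * w) := by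
      rw [hvdef, ← mul_assoc, ← zpow_add₀ D.al_ne_zero]
      congr 2
      rw [Nat.cast_mul, Nat.cast_sub (by omega)]
      ring
    rw [e1]; exact hv2) hvne
  have hvn : ‖v‖ ≤ 2 * ‖w‖ := by
    rw [hvdef, norm_mul, norm_mul, D.norm_al_zpow, one_mul]
    apply mul_le_mul_of_nonneg_right _ (norm_nonneg _)
    refine (norm_sub_le _ _).trans ?_
    rw [D.norm_al_zpow, norm_one]; norm_num
  have hpow : (2 : ℝ) ^ (M - q) ≤ 2 ^ (h * (wi u' - wi u)) := by
    apply pow_le_pow_right₀ one_le_two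
    have h1 : M - q ≤ wi u' - wi u := by omega
    exact h1.trans (Nat.le_mul_of_pos_left _ hhpos)
  have hfin : (2 : ℝ) ^ (M - q) ≤ 4 * (xi * lam * (h * (q * (q + 1))) * M +
      (xi * lam * (2 * ‖c0‖ + 1) + Cc + ‖c0‖)) ^ 2 := by
    have h1 : ‖v‖ ^ 2 ≤ (2 * ‖w‖) ^ 2 := pow_le_pow_left₀ (norm_nonneg _) hvn 2
    have h2 : ‖w‖ ^ 2 ≤ (xi * lam * (h * (q * (q + 1))) * M +
      (xi * lam * (2 * ‖c0‖ + 1) + Cc + ‖c0‖)) ^ 2 := pow_le_pow_left₀ (norm_nonneg _) hwn 2
    calc (2 : ℝ) ^ (M - q) ≤ 2 ^ (h * (wi u' - wi u)) := hpow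
      _ ≤ ‖v‖ ^ 2 := hint
      _ ≤ (2 * ‖w‖) ^ 2 := h1
      _ = 4 * ‖w‖ ^ 2 := by ring
      _ ≤ _ := by linarith
  exact absurd hM (not_lt.2 hfin)

end Auto

end H57.QI
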